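import Pool.Agent.H48.RN.Stmts1

/-!
# Project RN, module WSM: sums of `wf` twisted by characters
-/

set_option autoImplicit false
set_option linter.unusedSectionVars false

namespace Pool.RN

open Polynomial

/-- powers are smaller than exponentials -/
theorem WSM_pow (a : ℝ) (ha : 0 < a) (K : ℕ) :
    ∃ C : ℝ, 0 < C ∧ ∀ N : ℕ, ((N : ℝ) + 1) ^ K ≤ C * Real.exp (a * N) := by
  refine ⟨(K.factorial : ℝ) / a ^ K * Real.exp a, by positivity, fun N => ?_⟩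
  have h := Real.pow_div_factorial_le_exp (a * ((N : ℝ) + 1)) (by positivity) K
  rw [div_le_iff₀ (by positivity), mul_pow] at h
  have h2 : Real.exp (a * ((N : ℝ) + 1)) = Real.exp a * Real.exp (a * N) := by
    rw [← Real.exp_add]
    ring_nf
  rw [h2] at h
  have h3 : ((N : ℝ) + 1) ^ K = (a ^ K * ((N : ℝ) + 1) ^ K) / a ^ K := by
    field_simp
  rw [h3, div_le_iff₀ (by positivity)]
  calc a ^ K * ((N : ℝ) + 1) ^ K ≤ Real.exp a * Real.exp (a * N) * (K.factorial : ℝ) := h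
    _ = (K.factorial : ℝ) / a ^ K * Real.exp a * Real.exp (a * N) * a ^ K := by
        field_simp

section

variable {F : Type} [Field F] [Fintype F]

theorem WSM_cmul {M : F[X]} (hM : 1 ≤ M.natDegree) (χ₀ : MulChar (AdjoinRoot M) ℂ) (l : ℂ) :
    CMul (cc χ₀ l) := by
  have hnt : Nontrivial (AdjoinRoot M) := by
    apply AdjoinRoot.nontrivial
    intro h
    have := natDegree_eq_zero_iff_degree_le_zero.2 h.le
    omega
  have h0 : dir χ₀ (0 : F[X]) = 0 := by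
    unfold dir
    rw [map_zero]
    exact χ₀.map_nonunit not_isUnit_zero
  refine ⟨by simp [cc, (CMul.dir χ₀).one], fun f g => ?_⟩
  by_cases hf : f = 0
  · rw [hf, zero_mul]
    unfold cc
    rw [h0]
    ring
  by_cases hg : g = 0
  · rw [hg, mul_zero]
    unfold cc
    rw [h0]
    ring
  unfold cc
  rw [natDegree_mul hf hg, (CMul.dir χ₀).mul, pow_add]
  ring

theorem WSM_mm {M : F[X]} (χ₀ ψ : MulChar (AdjoinRoot M) ℂ) (l : ℂ) (hl : l = 1 ∨ l = -1) (i : ℕ) :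
    ‖mm (fun f => cc χ₀ l f * dir ψ f) i‖ = ‖mm (dir (χ₀ * ψ)) i‖ := by
  have h1 : mm (fun f => cc χ₀ l f * dir ψ f) i = l ^ i * mm (dir (χ₀ * ψ)) i := by
    unfold mm
    rw [Finset.mul_sum]
    refine Finset.sum_congr rfl fun f hf => ?_
    have hd : f.natDegree = i := (mem_Mon.1 hf).2
    have h2 : dir (χ₀ * ψ) f = dir χ₀ f * dir ψ f := by
      unfold dir
      rw [MulChar.mul_apply]
    rw [h2]
    unfold cc
    simp only [hd]
    ring
  have h3 : ‖l‖ = 1 := by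
    rcases hl with rfl | rfl <;> simp
  rw [h1, norm_mul, norm_pow, h3, one_pow, one_mul]

end

theorem s_WSM (F : Type) [Field F] [Fintype F] (hCNV : S_CNV F) (hSQF : S_SQF F) (hMOB : S_MOB F)
    (hMOP : S_MOP F) (hBDC : S_BDC F) : S_WSM F := by
  intro ε hε
  obtain ⟨C1, hC1, h1⟩ := hMOB (ε / 2) (half_pos hε)
  obtain ⟨C2, hC2, h2⟩ := hMOP (ε / 2) (half_pos hε)
  obtain ⟨K, hK⟩ := hSQF
  set Q : ℝ := (Fintype.card F : ℝ) with hQ
  have hQ1 : 1 < Q := by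
    rw [hQ]
    exact_mod_cast Fintype.one_lt_card
  have hQ0 : 0 < Q := by linarith
  have hlog : 0 < Real.log Q := Real.log_pos hQ1
  obtain ⟨C3, hC3, h3⟩ := WSM_pow (ε / 2 * Real.log Q) (by positivity) (K + 1)
  have h3' : ∀ N : ℕ, ((N : ℝ) + 1) ^ (K + 1) ≤ C3 * Q ^ (ε / 2 * N) := by
    intro N
    refine (h3 N).trans (le_of_eq ?_)
    rw [Real.rpow_def_of_pos hQ0]
    ring_nf
  set C0 : ℝ := max C1 C2 with hC0
  have hC0p : 0 < C0 := lt_max_of_lt_left hC1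
  refine ⟨C0 * C3, by positivity, ?_⟩
  intro M hM hM1 χ₀ ψ l hreal hl N
  have hM0 : M ≠ 0 := hM.ne_zero
  set m : ℝ := (M.natDegree : ℝ) with hm
  have hm0 : 0 ≤ m := by positivity
  have hmm : ∀ i : ℕ, ‖mm (fun f => cc χ₀ l f * dir ψ f) i‖ ≤
      C0 * Q ^ ((1 / 2 + ε / 2) * i + ε / 2 * m) := by
    intro i
    rw [WSM_mm χ₀ ψ l hl i]
    by_cases hχ : χ₀ * ψ = 1
    · rw [hχ]
      refine (h2 M hM hM1 i).trans ?_
      exact mul_le_mul_of_nonneg_right (le_max_right _ _) (Real.rpow_nonneg hQ0.le _)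
    · refine (h1 M hM hM1 _ hχ i).trans ?_
      exact mul_le_mul_of_nonneg_right (le_max_left _ _) (Real.rpow_nonneg hQ0.le _)
  have hcnv := hCNV (cc χ₀ l) (dir ψ) (WSM_cmul hM1 χ₀ l) (CMul.dir ψ) (hBDC M hM0 ψ) (by
    intro P hP _
    by_cases hu : IsUnit (AdjoinRoot.mk M P)
    · have h4 : dir χ₀ P = 1 ∨ dir χ₀ P = -1 := hreal _ hu
      have h5 : l ^ P.natDegree = 1 ∨ l ^ P.natDegree = -1 := by
        rcases hl with rfl | rfl
        · left; simp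
        · exact neg_one_pow_eq_or ℂ _
      unfold cc
      rcases h4 with h4 | h4 <;> rcases h5 with h5 | h5 <;> rw [h4, h5] <;> simp
    · right; right
      have h4 : dir χ₀ P = 0 := χ₀.map_nonunit hu
      have h5 : dir ψ P = 0 := ψ.map_nonunit hu
      exact ⟨by unfold cc; rw [h4, mul_zero], h5⟩) N
  refine hcnv.trans ?_
  have hterm : ∀ i ∈ Finset.range (N + 1),
      ‖mm (fun f => cc χ₀ l f * dir ψ f) i‖ * ((∑ e ∈ Mon F (N - i), kk e : ℕ) : ℝ) ≤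
        C0 * ((N : ℝ) + 1) ^ K * Q ^ ((1 / 2 + ε / 2) * N + ε / 2 * m) := by
    intro i hi
    have hiN : i ≤ N := by
      have := Finset.mem_range.1 hi
      omega
    have h4 := hK (N - i)
    have h5 : (((N - i : ℕ) : ℝ) + 1) ^ K ≤ ((N : ℝ) + 1) ^ K := by
      have : ((N - i : ℕ) : ℝ) ≤ N := by exact_mod_cast Nat.sub_le N i
      gcongr
    have h6 : Real.sqrt Q ^ (N - i) = Q ^ ((1 / 2 : ℝ) * ((N - i : ℕ) : ℝ)) := by
      rw [Real.sqrt_eq_rpow, ← Real.rpow_natCast, ← Real.rpow_mul hQ0.le]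
    have h7 : ((N - i : ℕ) : ℝ) = (N : ℝ) - i := by
      rw [Nat.cast_sub hiN]
    calc ‖mm (fun f => cc χ₀ l f * dir ψ f) i‖ * ((∑ e ∈ Mon F (N - i), kk e : ℕ) : ℝ)
        ≤ (C0 * Q ^ ((1 / 2 + ε / 2) * i + ε / 2 * m)) *
          ((((N - i : ℕ) : ℝ) + 1) ^ K * Real.sqrt Q ^ (N - i)) :=
          mul_le_mul (hmm i) h4 (Nat.cast_nonneg _) (by positivity)
      _ ≤ (C0 * Q ^ ((1 / 2 + ε / 2) * i + ε / 2 * m)) *
          (((N : ℝ) + 1) ^ K * Real.sqrt Q ^ (N - i)) := by gcongr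
      _ = C0 * ((N : ℝ) + 1) ^ K * (Q ^ ((1 / 2 + ε / 2) * i + ε / 2 * m) *
          Q ^ ((1 / 2 : ℝ) * ((N - i : ℕ) : ℝ))) := by rw [h6]; ring
      _ = C0 * ((N : ℝ) + 1) ^ K * Q ^ (((1 / 2 + ε / 2) * i + ε / 2 * m) +
          (1 / 2 : ℝ) * ((N - i : ℕ) : ℝ)) := by
          rw [Real.rpow_add hQ0 ((1 / 2 + ε / 2) * i + ε / 2 * m)]
      _ ≤ C0 * ((N : ℝ) + 1) ^ K * Q ^ ((1 / 2 + ε / 2) * N + ε / 2 * m) := by
          apply mul_le_mul_of_nonneg_left _ (by positivity)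
          apply Real.rpow_le_rpow_of_exponent_le hQ1.le
          rw [h7]
          have : (i : ℝ) ≤ N := by exact_mod_cast hiN
          nlinarith
  refine (Finset.sum_le_sum hterm).trans ?_
  rw [Finset.sum_const, Finset.card_range, nsmul_eq_mul]
  push_cast
  calc ((N : ℝ) + 1) * (C0 * ((N : ℝ) + 1) ^ K * Q ^ ((1 / 2 + ε / 2) * N + ε / 2 * m))
      = C0 * ((N : ℝ) + 1) ^ (K + 1) * Q ^ ((1 / 2 + ε / 2) * N + ε / 2 * m) := by ring
    _ ≤ C0 * (C3 * Q ^ (ε / 2 * N)) * Q ^ ((1 / 2 + ε / 2) * N + ε / 2 * m) := by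
        gcongr
        exact h3' N
    _ = C0 * C3 * (Q ^ (ε / 2 * N) * Q ^ ((1 / 2 + ε / 2) * N + ε / 2 * m)) := by ring
    _ = C0 * C3 * Q ^ (ε / 2 * N + ((1 / 2 + ε / 2) * N + ε / 2 * m)) := by
        rw [Real.rpow_add hQ0 (ε / 2 * N)]
    _ ≤ C0 * C3 * Q ^ ((1 / 2 + ε) * N + ε * m) := by
        apply mul_le_mul_of_nonneg_left _ (by positivity)
        apply Real.rpow_le_rpow_of_exponent_le hQ1.le
        nlinarith [mul_nonneg hε.le hm0]

end Pool.RN
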